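import Pool.Agent.PDX.Stmts

/-!
# PDX: modules ORA and ORB (the order of the entries)
-/

set_option autoImplicit false

namespace Pool.Agent.PDX.H84

open Pool.Agent.PDN Pool.Agent.PDM

private theorem bs_pos (t : ℕ) : 4 ≤ bs t := by
  unfold bs
  have : 1 ≤ (t + 1) ^ 2 := Nat.one_le_pow _ _ (Nat.succ_pos t)
  omega

private theorem four_succ {t : ℕ} (i : Fin t) : 4 * ((i : ℕ) + 1) ≤ bs t := by
  unfold bs
  have := i.isLt
  nlinarith

private theorem four_sq {t : ℕ} (i : Fin t) : 4 * ((i : ℕ) + 1) ^ 2 ≤ bs t := by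
  unfold bs
  have h := i.isLt
  have : ((i : ℕ) + 1) ^ 2 ≤ (t + 1) ^ 2 := Nat.pow_le_pow_left (by omega) 2
  omega

/-- the code is at most half of the power of the base -/
private theorem code_le {t : ℕ} (k : Fin 3) (i : Fin t) :
    2 * code k i ≤ bs t ^ (2 * (k : ℕ) + 2) := by
  unfold code
  have h1 := four_succ i
  have h2 := four_sq i
  have h3 := bs_pos t
  set B := bs t
  have e2 : B ^ (2 * (k : ℕ) + 2) = B ^ (2 * (k : ℕ)) * (B * B) := by ring
  have e1 : B ^ (2 * (k : ℕ) + 1) = B ^ (2 * (k : ℕ)) * B := by ring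
  rw [e2, e1]
  have h4 : 2 * (((i : ℕ) + 1) + B * ((i : ℕ) + 1) ^ 2) ≤ B * B := by nlinarith
  calc 2 * (B ^ (2 * (k : ℕ)) * ((i : ℕ) + 1) + B ^ (2 * (k : ℕ)) * B * ((i : ℕ) + 1) ^ 2)
      = B ^ (2 * (k : ℕ)) * (2 * (((i : ℕ) + 1) + B * ((i : ℕ) + 1) ^ 2)) := by ring
    _ ≤ B ^ (2 * (k : ℕ)) * (B * B) := Nat.mul_le_mul_left _ h4

/-- increments -/
private theorem code_lt {t : ℕ} (k : Fin 3) {i j : Fin t} (h : i < j) :
    code k i + bs t ^ (2 * (k : ℕ)) ≤ code k j := by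
  unfold code
  have h1 : (i : ℕ) + 1 + 1 ≤ (j : ℕ) + 1 := by
    have : (i : ℕ) < j := h
    omega
  have h2 : ((i : ℕ) + 1) ^ 2 ≤ ((j : ℕ) + 1) ^ 2 := Nat.pow_le_pow_left (by omega) 2
  have h3 := Nat.mul_le_mul_left (bs t ^ (2 * (k : ℕ))) h1
  have h4 := Nat.mul_le_mul_left (bs t ^ (2 * (k : ℕ) + 1)) h2
  rw [Nat.mul_add (bs t ^ (2 * (k : ℕ))) ((i : ℕ) + 1) 1, Nat.mul_one] at h3
  omega

private theorem vC_eq {t : ℕ} (p : Fin t × Fin t × Fin t) :
    vC p = 8 * (3 * off t + code 0 p.1 + code 1 p.2.1 + code 2 p.2.2) := by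
  unfold vC vA; ring

private theorem lex3 {t : ℕ} (p p' : Fin t × Fin t × Fin t) (h : p.2.2 < p'.2.2) :
    vC p < vC p' := by
  rw [vC_eq, vC_eq]
  have h0 := code_le 0 p.1
  have h1 := code_le 1 p.2.1
  have h2 := code_lt 2 h
  have h3 := bs_pos t
  simp only [Fin.val_zero, Fin.val_one, Fin.val_two, Nat.mul_zero, Nat.zero_add, Nat.mul_one]
    at h0 h1 h2
  norm_num at h0 h1 h2
  have h4 : bs t ^ 2 < bs t ^ 4 := Nat.pow_lt_pow_right (by omega) (by norm_num)
  omega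

private theorem lex2 {t : ℕ} (p p' : Fin t × Fin t × Fin t) (h3 : p.2.2 = p'.2.2)
    (h : p.2.1 < p'.2.1) : vC p < vC p' := by
  rw [vC_eq, vC_eq, h3]
  have h0 := code_le 0 p.1
  have h1 := code_lt 1 h
  have hb := bs_pos t
  simp only [Fin.val_zero, Fin.val_one, Nat.mul_zero, Nat.zero_add, Nat.mul_one] at h0 h1
  have h4 : 0 < bs t ^ 2 := Nat.pow_pos (by omega)
  omega

private theorem pos_inj (M : ℕ) (p p' : Pos M) (h2 : c2 M p = c2 M p') (h3 : c3 M p = c3 M p') :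
    p = p' := by
  obtain ⟨i, a⟩ := p
  obtain ⟨j, b⟩ := p'
  have hi := i.isLt
  have hj := j.isLt
  unfold c2 at h2
  unfold c3 at h3
  fin_cases a <;> fin_cases b <;>
    simp only [Fin.reduceFinMk, Fin.isValue, Fin.reduceEq, if_true, if_false, Fin.zero_eta,
      Fin.mk_one] at h2 h3 <;>
    first
      | (exfalso; omega)
      | (have hij : i = j := Fin.ext (by omega)
         subst hij
         rfl)

private theorem sc_ge {t : ℕ} (τ : Ins t) : 400 ≤ sc τ := by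
  unfold sc; omega

private theorem key (M : ℕ) (x y x' y' : Finset (Fin M)) (p p' : Pos M)
    (h : c3 M p < c3 M p' ∨ (c3 M p = c3 M p' ∧ c2 M p < c2 M p')) :
    vC (trp M x y p) < vC (trp M x' y' p') := by
  rcases h with h | ⟨h3, h⟩
  · exact lex3 _ _ h
  · exact lex2 _ _ (Fin.ext h3) h

private theorem mono {c a b : ℕ} (hc : 400 ≤ c) (h : a < b) :
    2 * (c * a - 10) < 2 * (c * b - 10) := by
  have h1 : c * a + c ≤ c * b := by
    have := Nat.mul_le_mul_left c h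
    rw [Nat.succ_eq_add_one, Nat.mul_add, Nat.mul_one] at this
    exact this
  omega

theorem ora : OraStmt := by
  intro M x y p p' h
  by_cases hpp : p = p'
  · rw [hpp]
  have hne : ¬ (c2 M p = c2 M p' ∧ c3 M p = c3 M p') := fun h => hpp (pos_inj M p p' h.1 h.2)
  by_cases hl : c3 M p < c3 M p' ∨ (c3 M p = c3 M p' ∧ c2 M p < c2 M p')
  · exact (mono (sc_ge _) (key M x y x y p p' hl)).le
  · have hl' : c3 M p' < c3 M p ∨ (c3 M p' = c3 M p ∧ c2 M p' < c2 M p) := by omega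
    exact absurd (mono (sc_ge (ins0 M)) (key M ∅ ∅ ∅ ∅ p' p hl')) (not_lt.2 h)

/-! ### ORB -/

private theorem off_ge (t : ℕ) (ht : 1 ≤ t) : 16 * bs t ^ 6 ≤ off t := by
  unfold off
  exact Nat.mul_le_mul_right _ (by omega)

private theorem vA_lt {t : ℕ} (k : Fin 3) (i : Fin t) : vA k i < 8 * off t + 8 * bs t ^ 6 := by
  unfold vA
  have h1 := code_le k i
  have hb := bs_pos t
  have h2 : bs t ^ (2 * (k : ℕ) + 2) ≤ bs t ^ 6 :=
    Nat.pow_le_pow_right (by omega) (by have := k.isLt; omega)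
  have h3 : 0 < bs t ^ 6 := Nat.pow_pos (by omega)
  omega

private theorem vC_ge {t : ℕ} (p : Fin t × Fin t × Fin t) : 24 * off t ≤ vC p := by
  rw [vC_eq]; omega

private theorem vC_le {t : ℕ} (p : Fin t × Fin t × Fin t) : vC p ≤ sA t := by
  unfold vC sA
  rw [Fin.sum_univ_three]
  have h0 : vA 0 p.1 ≤ ∑ i : Fin t, vA 0 i :=
    Finset.single_le_sum (f := fun i => vA 0 i) (fun _ _ => Nat.zero_le _) (Finset.mem_univ _)
  have h1 : vA 1 p.2.1 ≤ ∑ i : Fin t, vA 1 i :=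
    Finset.single_le_sum (f := fun i => vA 1 i) (fun _ _ => Nat.zero_le _) (Finset.mem_univ _)
  have h2 : vA 2 p.2.2 ≤ ∑ i : Fin t, vA 2 i :=
    Finset.single_le_sum (f := fun i => vA 2 i) (fun _ _ => Nat.zero_le _) (Finset.mem_univ _)
  omega

private theorem below (M : ℕ) (b : Bas M) (h : ∀ x y p, gv M b < wv M x y p)
    (x y : Finset (Fin M)) (p : Pos M) :
    (gv M b ≤ wv M ∅ ∅ p → gv M b ≤ wv M x y p) ∧ (wv M ∅ ∅ p ≤ gv M b → wv M x y p ≤ gv M b) :=
  ⟨fun _ => (h x y p).le, fun h' => absurd (h ∅ ∅ p) (not_lt.2 h')⟩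

private theorem above (M : ℕ) (b : Bas M) (h : ∀ x y p, wv M x y p < gv M b)
    (x y : Finset (Fin M)) (p : Pos M) :
    (gv M b ≤ wv M ∅ ∅ p → gv M b ≤ wv M x y p) ∧ (wv M ∅ ∅ p ≤ gv M b → wv M x y p ≤ gv M b) :=
  ⟨fun h' => absurd (h ∅ ∅ p) (not_lt.2 h'), fun _ => (h x y p).le⟩

private theorem wv_gt (M : ℕ) (x y : Finset (Fin M)) (p : Pos M) (a : ℕ)
    (h : a < vC (trp M x y p)) : 2 * (sc (ins0 M) * a) + 700 < wv M x y p := by
  unfold wv
  have hc := sc_ge (ins0 M)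
  have h1 : sc (ins0 M) * a + sc (ins0 M) ≤ sc (ins0 M) * vC (trp M x y p) := by
    have := Nat.mul_le_mul_left (sc (ins0 M)) h
    rw [Nat.succ_eq_add_one, Nat.mul_add, Nat.mul_one] at this
    exact this
  omega

theorem orb : OrbStmt := by
  intro M x y p b
  have ht : 1 ≤ 4 * M + 1 := by omega
  have ho := off_ge (4 * M + 1) ht
  have hb := bs_pos (4 * M + 1)
  have h6 : 0 < bs (4 * M + 1) ^ 6 := Nat.pow_pos (by omega)
  have hc := sc_ge (ins0 M)
  have h3 : ∀ x y p, 3 < vC (trp M x y p) := by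
    intro x y p
    have := vC_ge (trp M x y p)
    omega
  rcases b with ⟨k, i⟩ | ⟨e, e'⟩ | d | u | i | i
  · refine below M _ ?_ x y p
    intro x y p
    have h1 := vA_lt k i
    have h2 := vC_ge (trp M x y p)
    have h4 := wv_gt M x y p (vA k i) (by omega)
    have h5 : gv M (Sum.inl (k, i)) ≤ 2 * (sc (ins0 M) * vA k i) := Nat.sub_le _ _
    omega
  · refine below M _ ?_ x y p
    intro x y p
    have h4 := wv_gt M x y p 3 (h3 x y p)
    have h5 : gv M (Sum.inr (Sum.inl (e, e'))) ≤ 2 * (sc (ins0 M) * (if e = 0 then 1 else 3) +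
      (if e' then 3 else 0)) := Nat.sub_le _ _
    have h7 : sc (ins0 M) * (if e = 0 then 1 else 3) ≤ sc (ins0 M) * 3 :=
      Nat.mul_le_mul_left _ (by split_ifs <;> omega)
    have h8 : (if e' then 3 else 0 : ℕ) ≤ 3 := by split_ifs <;> omega
    omega
  · refine above M _ ?_ x y p
    intro x y p
    show 2 * (sc (ins0 M) * vC (trp M x y p) - 10) < 2 * (sc (ins0 M) * vD (4 * M + 1)) - 1
    have h1 := vC_le (trp M x y p)
    have h2 : vC (trp M x y p) + 1 ≤ vD (4 * M + 1) := by unfold vD; omega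
    have h4 := Nat.mul_le_mul_left (sc (ins0 M)) h2
    rw [Nat.mul_add, Nat.mul_one] at h4
    omega
  · refine above M _ ?_ x y p
    intro x y p
    show 2 * (sc (ins0 M) * vC (trp M x y p) - 10) < 2 * (sc (ins0 M) * vZ (ins0 M) -
      (14 * (ins0 M).card + 2 * (4 * M + 1) + 20))
    have h1 := vC_le (trp M x y p)
    have h2 : vC (trp M x y p) + 2 ≤ vZ (ins0 M) := by
      unfold vZ
      have h5 : 2 * vD (4 * M + 1) ≤ (4 * (4 * M + 1) + 4) * vD (4 * M + 1) :=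
        Nat.mul_le_mul_right _ (by omega)
      have h6 : vD (4 * M + 1) = 2 * sA (4 * M + 1) + 9 := rfl
      omega
    have h4 := Nat.mul_le_mul_left (sc (ins0 M)) h2
    rw [Nat.mul_add] at h4
    have h5 : 14 * (ins0 M).card + 2 * (4 * M + 1) + 20 ≤ sc (ins0 M) := by unfold sc; omega
    omega
  · refine below M _ ?_ x y p
    intro x y p
    have h4 := wv_gt M x y p 3 (h3 x y p)
    have h5 : gv M (Sum.inr (Sum.inr (Sum.inr (Sum.inr (Sum.inl i))))) = 8 := rfl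
    omega
  · refine below M _ ?_ x y p
    intro x y p
    have h4 := wv_gt M x y p 3 (h3 x y p)
    have h5 : gv M (Sum.inr (Sum.inr (Sum.inr (Sum.inr (Sum.inr i))))) = 3 := rfl
    omega

end Pool.Agent.PDX.H84
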