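import Pool.Agent.PDX.Stmts

/-!
# PDX: module SRT (sorting)
-/

set_option autoImplicit false

namespace Pool.Agent.PDX.H84

theorem srt : SrtStmt := by
  intro β P Z _ _ g w z₀ h1 h2 n hn
  have e0 : Fin n ≃ β ⊕ P := (Fintype.equivFinOfCardEq hn.symm).symm
  let f : Fin n → ℕᵒᵈ := fun i => OrderDual.toDual (Sum.elim g (w z₀) (e0 i))
  refine ⟨(Tuple.sort f).trans e0, ?_⟩
  intro z i j hij
  have h3 : f (Tuple.sort f i) ≤ f (Tuple.sort f j) := Tuple.monotone_sort f hij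
  have h4 : Sum.elim g (w z₀) (e0 (Tuple.sort f j)) ≤ Sum.elim g (w z₀) (e0 (Tuple.sort f i)) := h3
  show Sum.elim g (w z) (e0 (Tuple.sort f j)) ≤ Sum.elim g (w z) (e0 (Tuple.sort f i))
  generalize e0 (Tuple.sort f j) = u at h4 ⊢
  generalize e0 (Tuple.sort f i) = v at h4 ⊢
  rcases u with b | p <;> rcases v with b' | p'
  · exact h4
  · exact (h2 z p' b).1 h4
  · exact (h2 z p b').2 h4
  · exact h1 z p p' h4

end Pool.Agent.PDX.H84
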